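import Pool.Agent.Lib.MP_6bc78b_nt.MS.GL.Iface

/-! Row KPH: the kernel `kp` is entire, its decay, its symmetries. -/

set_option autoImplicit false

open Complex Filter Topology MeasureTheory

namespace Pool.Agent.Lib.MP_6bc78b_nt.MS.GL.H94

open Pool.Agent.Lib.MP_6bc78b_nt.MS.GL

lemma norm_cosh_le (z : ℂ) : ‖Complex.cosh z‖ ≤ Real.exp |z.re| := by
  unfold Complex.cosh
  have h1 : ‖Complex.exp z‖ ≤ Real.exp |z.re| := by
    rw [Complex.norm_exp]; exact Real.exp_le_exp.2 (le_abs_self _)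
  have h2 : ‖Complex.exp (-z)‖ ≤ Real.exp |z.re| := by
    rw [Complex.norm_exp, Complex.neg_re]; exact Real.exp_le_exp.2 (neg_le_abs _)
  rw [norm_div]
  have h3 := norm_add_le (Complex.exp z) (Complex.exp (-z))
  have h4 : ‖(2 : ℂ)‖ = 2 := by simp
  rw [h4]
  linarith

lemma norm_sinh_le (z : ℂ) : ‖Complex.sinh z‖ ≤ Real.exp |z.re| := by
  unfold Complex.sinh
  have h1 : ‖Complex.exp z‖ ≤ Real.exp |z.re| := by
    rw [Complex.norm_exp]; exact Real.exp_le_exp.2 (le_abs_self _)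
  have h2 : ‖Complex.exp (-z)‖ ≤ Real.exp |z.re| := by
    rw [Complex.norm_exp, Complex.neg_re]; exact Real.exp_le_exp.2 (neg_le_abs _)
  rw [norm_div]
  have h3 := norm_sub_le (Complex.exp z) (Complex.exp (-z))
  have h4 : ‖(2 : ℂ)‖ = 2 := by simp
  rw [h4]
  linarith

lemma cosh_bd {ξ : ℝ} {w : ℂ} (hξ : 0 ≤ ξ) (hw : |w.re| ≤ 1) :
    ‖Complex.cosh ((ξ : ℂ) * w)‖ ≤ Real.exp ξ := by
  refine (norm_cosh_le _).trans (Real.exp_le_exp.2 ?_)
  rw [Complex.re_ofReal_mul, abs_mul, abs_of_nonneg hξ]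
  nlinarith [abs_nonneg w.re]

section
variable {l M : ℝ} {φ : ℝ → ℝ}

lemma M_nonneg (hl : 0 < l) (h : IsPhi l M φ) : 0 ≤ M :=
  (abs_nonneg _).trans (h.2.2 0 le_rfl hl.le).1

lemma cont_phi (h : IsPhi l M φ) : Continuous φ := h.1.continuous

lemma cont_d1 (h : IsPhi l M φ) : Continuous (deriv φ) :=
  h.1.continuous_deriv (by norm_num)

lemma diff_d1 (h : IsPhi l M φ) : Differentiable ℝ (deriv φ) := by
  have h2 : ContDiff ℝ (1 + 1) φ := by
    have := h.1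
    norm_num
    exact this
  exact (contDiff_succ_iff_deriv.1 h2).2.2.differentiable (by norm_num)

lemma cont_d2 (h : IsPhi l M φ) : Continuous (deriv (deriv φ)) := by
  have h2 : ContDiff ℝ (1 + 1) φ := by
    have := h.1
    norm_num
    exact this
  exact (contDiff_succ_iff_deriv.1 h2).2.2.continuous_deriv (by norm_num)

lemma hd_phi (h : IsPhi l M φ) (ξ : ℝ) : HasDerivAt φ (deriv φ ξ) ξ :=
  ((h.1.differentiable (by norm_num)) ξ).hasDerivAt

lemma hd_d1 (h : IsPhi l M φ) (ξ : ℝ) : HasDerivAt (deriv φ) (deriv (deriv φ) ξ) ξ :=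
  ((diff_d1 h) ξ).hasDerivAt

/-- the second integral -/
lemma int_cosh_bd {ψ : ℝ → ℝ} (hl : 0 < l) (hψ : ∀ ξ, 0 ≤ ξ → ξ ≤ l → |ψ ξ| ≤ M)
    {w : ℂ} (hw : |w.re| ≤ 1) (hM : 0 ≤ M) :
    ‖∫ ξ in (0 : ℝ)..l, (ψ ξ : ℂ) * Complex.cosh ((ξ : ℂ) * w)‖ ≤ M * (Real.exp l - 1) := by
  have h1 : ‖∫ ξ in (0 : ℝ)..l, (ψ ξ : ℂ) * Complex.cosh ((ξ : ℂ) * w)‖ ≤
      ∫ ξ in (0 : ℝ)..l, M * Real.exp ξ := by
    refine intervalIntegral.norm_integral_le_of_norm_le hl.le ?_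
      ((Real.continuous_exp.const_mul M).intervalIntegrable _ _ )
    refine Filter.Eventually.of_forall fun ξ hξ => ?_
    rw [norm_mul, Complex.norm_real, Real.norm_eq_abs]
    exact mul_le_mul (hψ ξ hξ.1.le hξ.2) (cosh_bd hξ.1.le hw) (norm_nonneg _) hM
  refine h1.trans (le_of_eq ?_)
  rw [intervalIntegral.integral_const_mul, integral_exp, Real.exp_zero]

lemma parts (hl : 0 < l) (h : IsPhi l M φ) (w : ℂ) :
    w ^ 2 * kp φ l w = (∫ ξ in (0 : ℝ)..l, ((deriv (deriv φ) ξ : ℝ) : ℂ) * Complex.cosh ((ξ : ℂ) * w)) -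
      ((deriv φ l : ℝ) : ℂ) * Complex.cosh ((l : ℂ) * w) + ((deriv φ 0 : ℝ) : ℂ) := by
  have hc : Continuous fun ξ : ℝ => Complex.cosh ((ξ : ℂ) * w) :=
    Complex.continuous_cosh.comp (Complex.continuous_ofReal.mul continuous_const)
  have hA : Continuous fun ξ : ℝ => (φ ξ : ℂ) * Complex.cosh ((ξ : ℂ) * w) :=
    (Complex.continuous_ofReal.comp (cont_phi h)).mul hc
  have hB : Continuous fun ξ : ℝ => ((deriv (deriv φ) ξ : ℝ) : ℂ) * Complex.cosh ((ξ : ℂ) * w) :=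
    (Complex.continuous_ofReal.comp (cont_d2 h)).mul hc
  have hG : ∀ ξ : ℝ, HasDerivAt (fun ξ : ℝ => (φ ξ : ℂ) * (w * Complex.sinh ((ξ : ℂ) * w)) -
      ((deriv φ ξ : ℝ) : ℂ) * Complex.cosh ((ξ : ℂ) * w))
      (w ^ 2 * ((φ ξ : ℂ) * Complex.cosh ((ξ : ℂ) * w)) -
        ((deriv (deriv φ) ξ : ℝ) : ℂ) * Complex.cosh ((ξ : ℂ) * w)) ξ := by
    intro ξ
    have e0 : HasDerivAt (fun ξ : ℝ => (ξ : ℂ) * w) w ξ := by
      simpa using (Complex.ofRealCLM.hasDerivAt (x := ξ)).mul_const w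
    have e1 : HasDerivAt (fun ξ : ℝ => Complex.sinh ((ξ : ℂ) * w))
        (Complex.cosh ((ξ : ℂ) * w) * w) ξ := (Complex.hasDerivAt_sinh _).comp ξ e0
    have e2 : HasDerivAt (fun ξ : ℝ => Complex.cosh ((ξ : ℂ) * w))
        (Complex.sinh ((ξ : ℂ) * w) * w) ξ := (Complex.hasDerivAt_cosh _).comp ξ e0
    have e3 := ((hd_phi h ξ).ofReal_comp).mul (e1.const_mul w)
    have e4 := ((hd_d1 h ξ).ofReal_comp).mul e2
    have e5 := e3.sub e4
    refine e5.congr_deriv ?_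
    ring
  have hI := intervalIntegral.integral_eq_sub_of_hasDerivAt (a := 0) (b := l)
    (fun ξ _ => hG ξ) (((hA.const_mul (w ^ 2)).sub hB).intervalIntegrable _ _)
  have hI2 : (∫ ξ in (0 : ℝ)..l, (w ^ 2 * ((φ ξ : ℂ) * Complex.cosh ((ξ : ℂ) * w)) -
        ((deriv (deriv φ) ξ : ℝ) : ℂ) * Complex.cosh ((ξ : ℂ) * w))) =
      w ^ 2 * kp φ l w -
        ∫ ξ in (0 : ℝ)..l, ((deriv (deriv φ) ξ : ℝ) : ℂ) * Complex.cosh ((ξ : ℂ) * w) := by
    rw [intervalIntegral.integral_sub ((hA.const_mul (w ^ 2)).intervalIntegrable _ _)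
      (hB.intervalIntegrable _ _)]
    rw [intervalIntegral.integral_const_mul]
    rfl
  rw [hI2] at hI
  have h0 : φ l = 0 := h.2.1
  simp only [h0, Complex.ofReal_zero, zero_mul, Complex.sinh_zero, Complex.cosh_zero,
    mul_zero, mul_one] at hI
  linear_combination hI

lemma kp_bd (hl : 0 < l) (h : IsPhi l M φ) {w : ℂ} (hw : |w.re| ≤ 1) :
    ‖kp φ l w‖ ≤ M * (Real.exp l - 1) :=
  int_cosh_bd hl (fun ξ h1 h2 => (h.2.2 ξ h1 h2).1) hw (M_nonneg hl h)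

lemma kp_bd2 (hl : 0 < l) (h : IsPhi l M φ) {w : ℂ} (hw : |w.re| ≤ 1) :
    ‖w‖ ^ 2 * ‖kp φ l w‖ ≤ 2 * M * Real.exp l := by
  have hM := M_nonneg hl h
  rw [← norm_pow, ← norm_mul, parts hl h w]
  have h1 := int_cosh_bd (ψ := deriv (deriv φ)) hl (fun ξ h1 h2 => (h.2.2 ξ h1 h2).2.2) hw hM
  have h2 : ‖((deriv φ l : ℝ) : ℂ) * Complex.cosh ((l : ℂ) * w)‖ ≤ M * Real.exp l := by
    rw [norm_mul, Complex.norm_real, Real.norm_eq_abs]
    exact mul_le_mul (h.2.2 l hl.le le_rfl).2.1 (cosh_bd hl.le hw) (norm_nonneg _) hM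
  have h3 : ‖((deriv φ 0 : ℝ) : ℂ)‖ ≤ M := by
    rw [Complex.norm_real, Real.norm_eq_abs]
    exact (h.2.2 0 le_rfl hl.le).2.1
  have h4 := norm_add_le ((∫ ξ in (0 : ℝ)..l, ((deriv (deriv φ) ξ : ℝ) : ℂ) *
    Complex.cosh ((ξ : ℂ) * w)) - ((deriv φ l : ℝ) : ℂ) * Complex.cosh ((l : ℂ) * w)) ((deriv φ 0 : ℝ) : ℂ)
  have h5 := norm_sub_le (∫ ξ in (0 : ℝ)..l, ((deriv (deriv φ) ξ : ℝ) : ℂ) *
    Complex.cosh ((ξ : ℂ) * w)) (((deriv φ l : ℝ) : ℂ) * Complex.cosh ((l : ℂ) * w))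
  linarith

/-- the bound on the line `Re w = 1` (without the factor `l`) -/
theorem kp_line (hl : 0 < l) (h : IsPhi l M φ) (x : ℝ) :
    (1 + x ^ 2) * ‖kp φ l (1 + x * I)‖ ≤ 3 * M * Real.exp l := by
  have hM := M_nonneg hl h
  have hre : (1 + x * I : ℂ).re = 1 := by simp
  have him : (1 + x * I : ℂ).im = x := by simp
  have h1 := kp_bd2 hl h (w := 1 + x * I) (by rw [hre]; simp)
  have h2 : ‖(1 + x * I : ℂ)‖ ^ 2 = 1 + x ^ 2 := by
    rw [← Complex.normSq_eq_norm_sq, Complex.normSq_apply, hre, him]; ring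
  rw [h2] at h1
  have h3 : 0 ≤ M * Real.exp l := mul_nonneg hM (Real.exp_pos _).le
  linarith

theorem kp_strip (hl : 0 < l) (h : IsPhi l M φ) {w : ℂ} (hw : |w.re| ≤ 1) :
    ‖kp φ l w‖ ≤ 3 * M * Real.exp l / (1 + w.im ^ 2) := by
  have hM := M_nonneg hl h
  have hE : 0 ≤ M * Real.exp l := mul_nonneg hM (Real.exp_pos _).le
  rw [le_div_iff₀ (by positivity)]
  have h1 := kp_bd2 hl h hw
  have h2 := kp_bd hl h hw
  have h3 : w.im ^ 2 ≤ ‖w‖ ^ 2 := by
    rw [← Complex.normSq_eq_norm_sq, Complex.normSq_apply]; nlinarith [sq_nonneg w.re]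
  have h4 : w.im ^ 2 * ‖kp φ l w‖ ≤ ‖w‖ ^ 2 * ‖kp φ l w‖ :=
    mul_le_mul_of_nonneg_right h3 (norm_nonneg _)
  nlinarith [h1, h2, h4, hM]

lemma kp_differentiable (h : IsPhi l M φ) : Differentiable ℂ (kp φ l) := by
  intro w
  have hcont : ∀ z : ℂ, Continuous fun ξ : ℝ => (φ ξ : ℂ) * Complex.cosh ((ξ : ℂ) * z) :=
    fun z => (Complex.continuous_ofReal.comp (cont_phi h)).mul
      (Complex.continuous_cosh.comp (Complex.continuous_ofReal.mul continuous_const))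
  have hcont' : ∀ z : ℂ, Continuous fun ξ : ℝ =>
      (φ ξ : ℂ) * (Complex.sinh ((ξ : ℂ) * z) * (ξ : ℂ)) :=
    fun z => (Complex.continuous_ofReal.comp (cont_phi h)).mul
      ((Complex.continuous_sinh.comp (Complex.continuous_ofReal.mul continuous_const)).mul
        Complex.continuous_ofReal)
  have key := intervalIntegral.hasDerivAt_integral_of_dominated_loc_of_deriv_le
    (μ := volume) (a := 0) (b := l) (x₀ := w) (s := Metric.ball w 1)
    (F := fun (z : ℂ) (ξ : ℝ) => (φ ξ : ℂ) * Complex.cosh ((ξ : ℂ) * z))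
    (F' := fun (z : ℂ) (ξ : ℝ) => (φ ξ : ℂ) * (Complex.sinh ((ξ : ℂ) * z) * (ξ : ℂ)))
    (bound := fun ξ : ℝ => |φ ξ| * (Real.exp (|ξ| * (‖w‖ + 1)) * |ξ|))
    (Metric.ball_mem_nhds w one_pos)
    (Filter.Eventually.of_forall fun z => (hcont z).aestronglyMeasurable)
    ((hcont w).intervalIntegrable _ _)
    ((hcont' w).aestronglyMeasurable) ?_ ?_ ?_
  · exact key.2.differentiableAt
  · refine Filter.Eventually.of_forall fun ξ _ z hz => ?_
    rw [norm_mul, norm_mul, Complex.norm_real, Complex.norm_real, Real.norm_eq_abs,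
      Real.norm_eq_abs]
    refine mul_le_mul_of_nonneg_left ?_ (abs_nonneg _)
    refine mul_le_mul_of_nonneg_right ?_ (abs_nonneg _)
    refine (norm_sinh_le _).trans (Real.exp_le_exp.2 ?_)
    rw [Complex.re_ofReal_mul, abs_mul]
    refine mul_le_mul_of_nonneg_left ?_ (abs_nonneg _)
    refine (Complex.abs_re_le_norm z).trans ?_
    have h1 : ‖z - w‖ < 1 := by
      rw [Metric.mem_ball, dist_eq_norm] at hz; exact hz
    have h2 : ‖z‖ ≤ ‖w‖ + ‖z - w‖ := by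
      calc ‖z‖ = ‖w + (z - w)‖ := by ring_nf
        _ ≤ ‖w‖ + ‖z - w‖ := norm_add_le _ _
    linarith
  · refine Continuous.intervalIntegrable ?_ _ _
    have := cont_phi h
    fun_prop
  · refine Filter.Eventually.of_forall fun ξ _ z _ => ?_
    have e0 : HasDerivAt (fun z : ℂ => (ξ : ℂ) * z) (ξ : ℂ) z := by
      simpa using (hasDerivAt_id z).const_mul (ξ : ℂ)
    exact ((Complex.hasDerivAt_cosh _).comp z e0).const_mul (φ ξ : ℂ)

end

/-- Row KPH. -/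
theorem kph : KphStatement := by
  intro l M φ hl h
  have hM := M_nonneg hl h
  refine ⟨kp_differentiable h, ?_, ?_, ?_⟩
  · intro w hw
    refine (kp_strip hl h hw).trans ?_
    have hE : 0 ≤ M * Real.exp l := mul_nonneg hM (Real.exp_pos _).le
    refine div_le_div_of_nonneg_right ?_ (by positivity)
    nlinarith [mul_nonneg hE hl.le]
  · intro w
    constructor
    · unfold kp
      refine intervalIntegral.integral_congr fun ξ _ => ?_
      simp only [mul_neg, Complex.cosh_neg]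
    · unfold kp
      rw [← intervalIntegral.intervalIntegral_conj]
      refine intervalIntegral.integral_congr fun ξ _ => ?_
      simp only [map_mul, Complex.conj_ofReal]
      rw [← Complex.cosh_conj]
      simp only [map_mul, Complex.conj_ofReal]
  · intro u
    unfold kp
    rw [← intervalIntegral.integral_ofReal]
    refine intervalIntegral.integral_congr fun ξ _ => ?_
    have : (ξ : ℂ) * (u * I) = ((ξ * u : ℝ) : ℂ) * I := by push_cast; ring
    simp only [this, Complex.cosh_mul_I, Complex.ofReal_mul, Complex.ofReal_cos]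

end Pool.Agent.Lib.MP_6bc78b_nt.MS.GL.H94
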